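import Mathlib

/-!
# MP_ffcda7_co: lower bounds for `g(m,s)` from mixed radix digits

The digit basis with digits in different bases, where the `i`-th digit is written with `c_i` elements and at most
`σ_i` summands, gives lower bounds for `g(m,s)` for all `m` and `s`.
-/

set_option autoImplicit false

namespace Pool.Agent.Results.MP_ffcda7_co.DigitBounds

/-- `x` is a sum of at most `s` elements of `A`, repetition allowed. -/
def IsSum {G : Type*} [AddCommMonoid G] (A : Finset G) (s : ℕ) (x : G) : Prop :=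
  ∃ M : Multiset G, Multiset.card M ≤ s ∧ (∀ a ∈ M, a ∈ A) ∧ M.sum = x

/-- `φ(ℤ_n, [0,s])`: the least size of a set `A ⊆ ℤ_n` with `[0,s]A = ℤ_n`. -/
noncomputable def phi (n s : ℕ) : ℕ :=
  sInf {k | ∃ A : Finset (ZMod n), A.card = k ∧ ∀ x : ZMod n, IsSum A s x}

/-- `g(m,s)`: the largest `N` such that `φ(ℤ_n, [0,s]) ≤ m` for every `1 ≤ n ≤ N`. -/
noncomputable def g (m s : ℕ) : ℕ := sSup {N | ∀ n, 1 ≤ n → n ≤ N → phi n s ≤ m}

/-- the product of the numbers `c σ + 1` over the pairs `(c, σ)` of the list -/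
def base : List (ℕ × ℕ) → ℕ
  | [] => 1
  | p :: l => (p.1 * p.2 + 1) * base l

/-- the number with the digits `c (σ - 1) + 1`, in the mixed radix system with the bases `c σ + 1`; the head of the
list belongs to the leading digit -/
def edge : List (ℕ × ℕ) → ℕ
  | [] => 0
  | p :: l => (p.1 * (p.2 - 1) + 1) * base l + edge l

lemma IsSum.mono {G : Type*} [AddCommMonoid G] {A B : Finset G} {s t : ℕ} {x : G} (h : IsSum A s x)
    (hAB : A ⊆ B) (hst : s ≤ t) : IsSum B t x := by
  obtain ⟨M, h1, h2, h3⟩ := h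
  exact ⟨M, h1.trans hst, fun a ha => hAB (h2 a ha), h3⟩

lemma IsSum.add {G : Type*} [AddCommMonoid G] {A : Finset G} {s t : ℕ} {x y : G} (h : IsSum A s x)
    (h' : IsSum A t y) : IsSum A (s + t) (x + y) := by
  obtain ⟨M, h1, h2, h3⟩ := h
  obtain ⟨M', h1', h2', h3'⟩ := h'
  refine ⟨M + M', ?_, ?_, ?_⟩
  · rw [Multiset.card_add]; omega
  · intro a ha
    rcases Multiset.mem_add.mp ha with h | h
    · exact h2 a h
    · exact h2' a h
  · rw [Multiset.sum_add, h3, h3']

lemma IsSum.map {G H : Type*} [AddCommMonoid G] [AddCommMonoid H] [DecidableEq H] {A : Finset G} {s : ℕ} {x : G}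
    (f : G →+ H) (h : IsSum A s x) : IsSum (A.image f) s (f x) := by
  obtain ⟨M, h1, h2, h3⟩ := h
  refine ⟨M.map f, ?_, ?_, ?_⟩
  · rw [Multiset.card_map]; exact h1
  · intro b hb
    obtain ⟨a, ha, rfl⟩ := Multiset.mem_map.mp hb
    exact Finset.mem_image_of_mem f (h2 a ha)
  · rw [← h3, map_multiset_sum]

lemma isSum_Icc (c : ℕ) : ∀ (k x : ℕ), x ≤ c * k → IsSum (Finset.Icc 1 c) k x := by
  intro k
  induction k with
  | zero =>
    intro x hx
    have : x = 0 := by simpa using hx
    subst this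
    exact ⟨0, by simp, by simp, by simp⟩
  | succ k ih =>
    intro x hx
    by_cases h0 : x = 0
    · subst h0
      exact ⟨0, by simp, by simp, by simp⟩
    · have hc : 0 < c := by
        rcases Nat.eq_zero_or_pos c with h | h
        · subst h; simp at hx; exact absurd hx h0
        · exact h
      have h1 : x - min x c ≤ c * k := by
        have : c * (k + 1) = c * k + c := by ring
        omega
      have h2 : IsSum (Finset.Icc 1 c) 1 (min x c) :=
        ⟨{min x c}, by simp, by
          intro a ha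
          rw [Multiset.mem_singleton] at ha
          subst ha
          rw [Finset.mem_Icc]; omega, by simp⟩
      have h3 := (ih _ h1).add h2
      have h4 : x - min x c + min x c = x := by omega
      rwa [h4] at h3

lemma base_pos (l : List (ℕ × ℕ)) : 0 < base l := by
  induction l with
  | nil => simp [base]
  | cons p l ih => simp only [base]; positivity

lemma edge_le (l : List (ℕ × ℕ)) (hl : ∀ p ∈ l, 1 ≤ p.1 ∧ 1 ≤ p.2) : edge l ≤ base l := by
  induction l with
  | nil => simp [edge, base]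
  | cons p l ih =>
    have ih := ih fun q hq => hl q (List.mem_cons_of_mem _ hq)
    obtain ⟨h1, h2⟩ := hl p List.mem_cons_self
    simp only [edge, base]
    obtain ⟨k, hk⟩ : ∃ k, p.2 = k + 1 := ⟨p.2 - 1, by omega⟩
    rw [hk]
    have e : k + 1 - 1 = k := by omega
    rw [e]
    have : (p.1 * (k + 1) + 1) * base l = (p.1 * k + 1) * base l + p.1 * base l := by ring
    have h3 : base l ≤ p.1 * base l := Nat.le_mul_of_pos_left _ h1
    omega

/-- the digit basis -/
lemma digits (l : List (ℕ × ℕ)) (hl : ∀ p ∈ l, 1 ≤ p.1 ∧ 1 ≤ p.2) :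
    ∃ A : Finset ℕ, A.card ≤ (l.map Prod.fst).sum ∧
      (∀ x < base l, IsSum A (l.map Prod.snd).sum x) ∧
      (∀ x < edge l, ∃ s, s + 1 ≤ (l.map Prod.snd).sum ∧ IsSum A s x) := by
  induction l with
  | nil =>
    refine ⟨∅, by simp, ?_, ?_⟩
    · intro x hx
      have : x = 0 := by simpa [base] using hx
      subst this
      exact ⟨0, by simp, by simp, by simp⟩
    · intro x hx
      simp [edge] at hx
  | cons p l ih =>
    obtain ⟨A, hA, hA1, hA2⟩ := ih fun q hq => hl q (List.mem_cons_of_mem _ hq)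
    obtain ⟨h1, h2⟩ := hl p List.mem_cons_self
    have hb := base_pos l
    have he := edge_le l fun q hq => hl q (List.mem_cons_of_mem _ hq)
    set f : ℕ →+ ℕ := AddMonoidHom.mulLeft (base l) with hf
    refine ⟨A ∪ (Finset.Icc 1 p.1).image f, ?_, ?_, ?_⟩
    · refine (Finset.card_union_le _ _).trans ?_
      have := Finset.card_image_le (s := Finset.Icc 1 p.1) (f := f)
      rw [Nat.card_Icc] at this
      simp only [List.map_cons, List.sum_cons]
      omega
    · intro x hx
      have hy : x / base l ≤ p.1 * p.2 := by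
        have : x / base l < p.1 * p.2 + 1 := Nat.div_lt_of_lt_mul (by rw [mul_comm]; exact hx)
        omega
      have h3 := ((isSum_Icc p.1 p.2 _ hy).map f).mono (Finset.subset_union_right (s₁ := A)) le_rfl
      have h4 := (hA1 (x % base l) (Nat.mod_lt _ hb)).mono
        (Finset.subset_union_left (s₂ := (Finset.Icc 1 p.1).image f)) le_rfl
      have h5 := h3.add h4
      have h6 : f (x / base l) + x % base l = x := by
        simp only [hf, AddMonoidHom.coe_mulLeft]
        exact Nat.div_add_mod _ _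
      rw [h6] at h5
      simpa only [List.map_cons, List.sum_cons] using h5
    · intro x hx
      obtain ⟨k, hk⟩ : ∃ k, p.2 = k + 1 := ⟨p.2 - 1, by omega⟩
      have e : k + 1 - 1 = k := by omega
      simp only [edge, hk, e] at hx
      have hxx := Nat.div_add_mod x (base l)
      have h6 : f (x / base l) + x % base l = x := by
        simp only [hf, AddMonoidHom.coe_mulLeft]
        exact hxx
      have hm := Nat.mod_lt x hb
      by_cases hy : x / base l ≤ p.1 * k
      · have h3 := ((isSum_Icc p.1 k _ hy).map f).mono (Finset.subset_union_right (s₁ := A)) le_rfl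
        have h4 := (hA1 (x % base l) hm).mono
          (Finset.subset_union_left (s₂ := (Finset.Icc 1 p.1).image f)) le_rfl
        refine ⟨k + (l.map Prod.snd).sum, ?_, ?_⟩
        · simp only [List.map_cons, List.sum_cons, hk]; omega
        · have h5 := h3.add h4
          rwa [h6] at h5
      · have hy1 : x / base l = p.1 * k + 1 := by
          have h7 : x / base l < p.1 * k + 2 := by
            apply Nat.div_lt_of_lt_mul
            calc x < (p.1 * k + 1) * base l + edge l := hx
              _ ≤ (p.1 * k + 1) * base l + base l := by omega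
              _ = base l * (p.1 * k + 2) := by ring
          omega
        have hz : x % base l < edge l := by
          rw [hy1] at hxx
          have : base l * (p.1 * k + 1) = (p.1 * k + 1) * base l := by ring
          omega
        obtain ⟨s, hs, hs'⟩ := hA2 _ hz
        have hy2 : x / base l ≤ p.1 * p.2 := by
          rw [hy1, hk]
          have : p.1 * (k + 1) = p.1 * k + p.1 := by ring
          omega
        have h3 := ((isSum_Icc p.1 p.2 _ hy2).map f).mono (Finset.subset_union_right (s₁ := A)) le_rfl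
        have h4 := hs'.mono (Finset.subset_union_left (s₂ := (Finset.Icc 1 p.1).image f)) le_rfl
        refine ⟨p.2 + s, ?_, ?_⟩
        · simp only [List.map_cons, List.sum_cons]; omega
        · have h5 := h3.add h4
          rwa [h6] at h5

lemma phi_le {n m s N : ℕ} {A : Finset ℕ} (hA : A.card ≤ m) (h : ∀ x < N, IsSum A s x) (hn : 1 ≤ n) (hN : n ≤ N) :
    phi n s ≤ m := by
  have : NeZero n := ⟨by omega⟩
  suffices h0 : ∀ x : ZMod n, IsSum (A.image (Nat.castAddMonoidHom (ZMod n))) s x by
    have h1 : (A.image (Nat.castAddMonoidHom (ZMod n))).card ∈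
        {k | ∃ A : Finset (ZMod n), A.card = k ∧ ∀ x : ZMod n, IsSum A s x} := ⟨_, rfl, h0⟩
    exact (Nat.sInf_le h1).trans (Finset.card_image_le.trans hA)
  intro x
  have h1 := (h x.val ((ZMod.val_lt x).trans_le hN)).map (Nat.castAddMonoidHom (ZMod n))
  have h2 : (Nat.castAddMonoidHom (ZMod n)) x.val = x := by simp
  rwa [h2] at h1

lemma exists_basis {n s : ℕ} (hs : 1 ≤ s) (hn : 1 ≤ n) :
    ∃ A : Finset (ZMod n), A.card = phi n s ∧ ∀ x : ZMod n, IsSum A s x := by
  have : NeZero n := ⟨by omega⟩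
  have hne : {k | ∃ A : Finset (ZMod n), A.card = k ∧ ∀ x : ZMod n, IsSum A s x}.Nonempty :=
    ⟨_, Finset.univ, rfl, fun x => ⟨{x}, by simpa using hs, by simp, by simp⟩⟩
  exact Nat.sInf_mem hne

/-- the set in the definition of `g` is bounded -/
lemma bdd {m s : ℕ} (hs : 1 ≤ s) : BddAbove {N | ∀ n, 1 ≤ n → n ≤ N → phi n s ≤ m} := by
  refine ⟨(s + 1) ^ m, ?_⟩
  intro N hN
  rcases Nat.eq_zero_or_pos N with h0 | h0
  · subst h0; exact Nat.zero_le _
  have hle := hN N h0 le_rfl
  have : NeZero N := ⟨by omega⟩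
  obtain ⟨A, hA, hb⟩ := exists_basis hs h0
  classical
  have hsurj : Function.Surjective
      (fun c : A → Fin (s + 1) => ∑ a : A, (c a : ℕ) • (a : ZMod N)) := by
    intro x
    obtain ⟨M, h1, h2, h3⟩ := hb x
    refine ⟨fun a => ⟨M.count (a : ZMod N), Nat.lt_succ_of_le ((Multiset.count_le_card _ _).trans h1)⟩, ?_⟩
    simp only
    rw [← h3, Finset.sum_multiset_count_of_subset M A (fun a ha => h2 a (Multiset.mem_toFinset.mp ha))]
    exact Finset.sum_coe_sort A (fun a => M.count a • a)
  have hcard := Fintype.card_le_of_surjective _ hsurj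
  rw [ZMod.card, Fintype.card_fun, Fintype.card_fin, Fintype.card_coe, hA] at hcard
  exact hcard.trans (Nat.pow_le_pow_right (by omega) hle)

lemma le_g {m s N : ℕ} (hs : 1 ≤ s) {A : Finset ℕ} (hA : A.card ≤ m) (h : ∀ x < N, IsSum A s x) : N ≤ g m s :=
  le_csSup (bdd hs) fun _ hn hN => phi_le hA h hn hN

theorem general (m s : ℕ) (hs : 1 ≤ s) (l : List (ℕ × ℕ)) (hl : ∀ p ∈ l, 1 ≤ p.1 ∧ 1 ≤ p.2)
    (hm : (l.map Prod.fst).sum ≤ m) :
    ((l.map Prod.snd).sum ≤ s → base l ≤ g m s) ∧ ((l.map Prod.snd).sum ≤ s + 1 → edge l ≤ g m s) := by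
  obtain ⟨A, h1, h2, h3⟩ := digits l hl
  refine ⟨fun h => le_g hs (h1.trans hm) fun x hx => (h2 x hx).mono (Finset.Subset.refl _) h, fun h =>
    le_g hs (h1.trans hm) fun x hx => ?_⟩
  obtain ⟨t, ht, ht'⟩ := h3 x hx
  exact ht'.mono (Finset.Subset.refl _) (by omega)

lemma base_append (l l' : List (ℕ × ℕ)) : base (l ++ l') = base l * base l' := by
  induction l with
  | nil => simp [base]
  | cons p l ih => simp only [List.cons_append, base, ih]; ring

lemma base_replicate (k : ℕ) (p : ℕ × ℕ) : base (List.replicate k p) = (p.1 * p.2 + 1) ^ k := by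
  induction k with
  | zero => simp [base]
  | succ k ih => simp only [List.replicate_succ, base, ih]; ring

lemma edge_one (l : List (ℕ × ℕ)) (hl : ∀ p ∈ l, p.1 = 1 ∧ 1 ≤ p.2) : edge l + 1 = base l := by
  induction l with
  | nil => simp [edge, base]
  | cons p l ih =>
    have ih := ih fun q hq => hl q (List.mem_cons_of_mem _ hq)
    obtain ⟨h1, h2⟩ := hl p List.mem_cons_self
    simp only [edge, base, h1]
    have e : 1 * (p.2 - 1) + 1 = p.2 := by omega
    rw [e]
    have : (1 * p.2 + 1) * base l = p.2 * base l + base l := by ring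
    omega

theorem uniform (m s : ℕ) (hm : 1 ≤ m) (hs : 1 ≤ s) :
    ((s + 1) / m + 1) ^ (m - (s + 1) % m) * ((s + 1) / m + 2) ^ ((s + 1) % m) ≤ g m s + 1 := by
  set q := (s + 1) / m with hq
  set r := (s + 1) % m with hr
  have hqr : m * q + r = s + 1 := Nat.div_add_mod _ _
  have hrm : r < m := Nat.mod_lt _ hm
  rcases Nat.eq_zero_or_pos q with h0 | h0
  · have hl : ∀ p ∈ List.replicate r ((1 : ℕ), (1 : ℕ)), p.1 = 1 ∧ 1 ≤ p.2 := by
      intro p hp
      rw [List.eq_of_mem_replicate hp]
      exact ⟨rfl, le_rfl⟩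
    have h1 := (general m s hs (List.replicate r (1, 1)) (fun p hp => ⟨(hl p hp).1.ge, (hl p hp).2⟩)
      (by simp; omega)).2 (by simp; rw [h0] at hqr; omega)
    have h2 := edge_one _ hl
    rw [base_replicate] at h2
    rw [h0]
    simp only [zero_add, one_pow, one_mul, show (1 : ℕ) + 1 = 2 from rfl] at h2 ⊢
    omega
  · have hl : ∀ p ∈ List.replicate (m - r) ((1 : ℕ), q) ++ List.replicate r ((1 : ℕ), q + 1), p.1 = 1 ∧ 1 ≤ p.2 := by
      intro p hp
      rcases List.mem_append.mp hp with h | h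
      · rw [List.eq_of_mem_replicate h]; exact ⟨rfl, h0⟩
      · rw [List.eq_of_mem_replicate h]; exact ⟨rfl, by simp⟩
    have h1 := (general m s hs (List.replicate (m - r) (1, q) ++ List.replicate r (1, q + 1))
      (fun p hp => ⟨(hl p hp).1.ge, (hl p hp).2⟩) (by simp; omega)).2 (by
        simp only [List.map_append, List.map_replicate, List.sum_append, List.sum_replicate, smul_eq_mul]
        have : (m - r) * q + r * (q + 1) = m * q + r := by
          obtain ⟨k, hk⟩ : ∃ k, m = r + k := ⟨m - r, by omega⟩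
          have : m - r = k := by omega
          rw [this, hk]; ring
        omega)
    have h2 := edge_one _ hl
    rw [base_append, base_replicate, base_replicate] at h2
    simp only [one_mul] at h2
    have : (q + 1 + 1) = q + 2 := rfl
    rw [this] at h2
    omega

/-- **Lower bounds for `g(m,s)`, all `m ≥ 1`, `s ≥ 1`.** (1) `g(m,s) ≥ (q+1)^(m-r) (q+2)^r - 1`, `s + 1 = m q + r`,
`0 ≤ r < m`. (2) For all pairs `(c_i, σ_i)` of positive integers with `∑ c_i ≤ m`: `g(m,s) ≥ ∏ (c_i σ_i + 1)` if
`∑ σ_i ≤ s`, and `g(m,s) ≥ edge` if `∑ σ_i ≤ s + 1`. (3) `g(m,m) ≥ 5^⌊m/2⌋`. -/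
theorem result :
    (∀ m s : ℕ, 1 ≤ m → 1 ≤ s →
      ((s + 1) / m + 1) ^ (m - (s + 1) % m) * ((s + 1) / m + 2) ^ ((s + 1) % m) - 1 ≤ g m s) ∧
    (∀ (m s : ℕ) (l : List (ℕ × ℕ)), 1 ≤ s → (∀ p ∈ l, 1 ≤ p.1 ∧ 1 ≤ p.2) → (l.map Prod.fst).sum ≤ m →
      ((l.map Prod.snd).sum ≤ s → base l ≤ g m s) ∧ ((l.map Prod.snd).sum ≤ s + 1 → edge l ≤ g m s)) ∧
    (∀ m : ℕ, 1 ≤ m → 5 ^ (m / 2) ≤ g m m) := by
  refine ⟨fun m s hm hs => ?_, fun m s l hs hl hm => general m s hs l hl hm, fun m hm => ?_⟩
  · have := uniform m s hm hs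
    omega
  · have h := (general m m hm (List.replicate (m / 2) (2, 2)) (fun p hp => by
      rw [List.eq_of_mem_replicate hp]; simp) (by simp; omega)).1 (by simp; omega)
    rw [base_replicate] at h
    simpa using h

end Pool.Agent.Results.MP_ffcda7_co.DigitBounds
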